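import Pool.Agent.W_MP_15691b_co.Basic

set_option autoImplicit false

namespace Pool.Agent.W_MP_15691b_co

theorem colorable_three (H : SimpleGraph (V × Fin 3))
    (h1 : ∀ x y : V × Fin 3, H.Adj x y → G.Adj x.1 y.1)
    (h2 : ∀ (x : V × Fin 3) (v : V) (j k : Fin 3), H.Adj x (v, j) → H.Adj x (v, k) → j = k) :
    ∃ f : V → Finset (Fin 3), (∀ v, (f v).card = 1) ∧
      ∀ (u v : V), ∀ i ∈ f u, ∀ j ∈ f v, ¬ H.Adj (u, i) (v, j) := by
  have hcopy : ∀ S : Finset (Fin 6), ∃ col : Fin 8 → Fin 3,
      (∀ i j, eo i j = true → ¬ H.Adj (some (S, i), col i) (some (S, j), col j)) ∧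
      (∀ j : Fin 8, 2 ≤ j.val → ¬ H.Adj (none, 0) (some (S, j), col j)) := by
    intro S
    exact copy_colorable (fun i a j c => H.Adj (some (S, i), a) (some (S, j), c))
      (fun i a j c d hc hd => h2 _ _ c d hc hd)
      (fun i a b j c ha hb => h2 (some (S, j), c) (some (S, i)) a b ha.symm hb.symm)
      (fun j c => H.Adj (none, 0) (some (S, j), c))
      (fun j c d hc hd => h2 _ _ c d hc hd)
  choose col hcol1 hcol2 using hcopy
  let g : V → Fin 3 := fun v => match v with
    | none => 0
    | some (S, j) => col S j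
  refine ⟨fun v => {g v}, fun v => Finset.card_singleton _, ?_⟩
  intro u v i hi j hj
  rw [Finset.mem_singleton] at hi hj
  subst hi hj
  intro hadj
  have hG : gadj u v := h1 _ _ hadj
  match u, v, hG, hadj with
  | none, none, hG, _ => exact hG
  | none, some (S, j), hG, hadj => exact hcol2 S j hG hadj
  | some (S, j), none, hG, hadj => exact hcol2 S j hG hadj.symm
  | some (S, i), some (T, j), hG, hadj =>
    obtain ⟨rfl, hij | hji⟩ := hG
    · exact hcol1 S i j hij hadj
    · exact hcol1 S j i hji hadj.symm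

end Pool.Agent.W_MP_15691b_co
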