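import Pool.Agent.W_MP_15691b_co.Basic

set_option autoImplicit false

namespace Pool.Agent.W_MP_15691b_co

/-! ### the bad 6-fold cover -/

/-- label tables: colour of a core vertex -> matched colour of the gadget vertex (9 = unmatched). -/
def m02 : Fin 6 → ℕ := ![1, 9, 3, 2, 9, 0]
def m12 : Fin 6 → ℕ := ![3, 9, 2, 0, 1, 9]
def m03 : Fin 6 → ℕ := ![0, 2, 9, 9, 1, 3]
def m13 : Fin 6 → ℕ := ![9, 2, 9, 0, 3, 1]
def m04 : Fin 6 → ℕ := ![9, 3, 1, 2, 0, 9]
def m15 : Fin 6 → ℕ := ![1, 3, 2, 9, 9, 0]
def m06 : Fin 6 → ℕ := ![9, 0, 2, 1, 9, 3]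
def m17 : Fin 6 → ℕ := ![1, 2, 0, 3, 9, 9]

/-- oriented adjacency inside a copy. -/
def bo : Fin 8 → Fin 6 → Fin 8 → Fin 6 → Bool
  | 0, c, 2, d => m02 c == d.val
  | 1, c, 2, d => m12 c == d.val
  | 0, c, 3, d => m03 c == d.val
  | 1, c, 3, d => m13 c == d.val
  | 0, c, 4, d => m04 c == d.val
  | 4, c, 5, d => c.val == d.val && decide (c.val < 4)
  | 1, c, 5, d => m15 c == d.val
  | 0, c, 6, d => m06 c == d.val
  | 6, c, 7, d => c.val == d.val && decide (c.val < 4)
  | 1, c, 7, d => m17 c == d.val
  | _, _, _, _ => false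

theorem bo_eo : ∀ (i j : Fin 8) (c d : Fin 6), bo i c j d = true → eo i j = true := by
  decide +kernel

theorem bo_right : ∀ (i j : Fin 8) (c d d' : Fin 6), bo i c j d = true → bo i c j d' = true →
    d = d' := by
  decide +kernel

theorem bo_left : ∀ (i j : Fin 8) (c c' d : Fin 6), bo i c j d = true → bo i c' j d = true →
    c = c' := by
  decide +kernel

theorem eo_asymm : ∀ (i j : Fin 8), eo i j = true → eo j i = false := by
  decide +kernel

/-- the rank of a colour in `S`. -/
def rk (S : Finset (Fin 6)) (c : Fin 6) : ℕ := (S.filter (· < c)).card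

theorem rk_inj : ∀ (S : Finset (Fin 6)) (c d : Fin 6), c ∈ S → d ∈ S → rk S c = rk S d → c = d := by
  intro S c d hc hd h
  by_contra hne
  rcases lt_or_gt_of_ne hne with hlt | hlt
  · have : rk S c < rk S d := by
      apply Finset.card_lt_card
      rw [Finset.ssubset_iff_of_subset]
      · exact ⟨c, by simp [hc, hlt], by simp⟩
      · intro x hx
        rw [Finset.mem_filter] at hx ⊢
        exact ⟨hx.1, hx.2.trans hlt⟩
    omega
  · have : rk S d < rk S c := by
      apply Finset.card_lt_card
      rw [Finset.ssubset_iff_of_subset]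
      · exact ⟨d, by simp [hd, hlt], by simp⟩
      · intro x hx
        rw [Finset.mem_filter] at hx ⊢
        exact ⟨hx.1, hx.2.trans hlt⟩
    omega

/-- adjacency in the cover graph. -/
def hadj : V × Fin 6 → V × Fin 6 → Prop
  | (none, _), (none, _) => False
  | (none, c), (some (S, j), d) => 2 ≤ j.val ∧ c ∈ S ∧ d.val = 4 + rk S c
  | (some (S, j), d), (none, c) => 2 ≤ j.val ∧ c ∈ S ∧ d.val = 4 + rk S c
  | (some (S, i), c), (some (T, j), d) => S = T ∧ (bo i c j d = true ∨ bo j d i c = true)

theorem hadj_symm (x y : V × Fin 6) (h : hadj x y) : hadj y x := by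
  match x, y, h with
  | (none, _), (some (_, j), _), h => exact h
  | (some (_, j), _), (none, _), h => exact h
  | (some (S, i), _), (some (T, j), _), h => exact ⟨h.1.symm, h.2.symm⟩

theorem hadj_gadj (x y : V × Fin 6) (h : hadj x y) : gadj x.1 y.1 := by
  match x, y, h with
  | (none, _), (some (_, j), _), h => exact h.1
  | (some (_, j), _), (none, _), h => exact h.1
  | (some (S, i), c), (some (T, j), d), h =>
    exact ⟨h.1, h.2.imp (bo_eo i j c d) (bo_eo j i d c)⟩

/-- the bad cover. -/
def H : SimpleGraph (V × Fin 6) where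
  Adj := hadj
  symm := ⟨fun x y h => hadj_symm x y h⟩
  loopless := ⟨fun x h => gadj_irrefl x.1 (hadj_gadj x x h)⟩

theorem H_matching (x : V × Fin 6) (v : V) (j k : Fin 6) (hj : H.Adj x (v, j))
    (hk : H.Adj x (v, k)) : j = k := by
  change hadj x (v, j) at hj
  change hadj x (v, k) at hk
  match x, v, hj, hk with
  | (none, c), some (S, i), hj, hk =>
    apply Fin.ext
    rw [hj.2.2, hk.2.2]
  | (some (S, i), d), none, hj, hk =>
    apply rk_inj S j k hj.2.1 hk.2.1
    have h1 := hj.2.2
    have h2 := hk.2.2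
    omega
  | (some (S, i), c), some (T, l), hj, hk =>
    rcases hj.2 with hj' | hj' <;> rcases hk.2 with hk' | hk'
    · exact bo_right i l c j k hj' hk'
    · have e1 := bo_eo _ _ _ _ hj'
      have e2 := bo_eo _ _ _ _ hk'
      rw [eo_asymm _ _ e1] at e2
      exact absurd e2 (by decide)
    · have e1 := bo_eo _ _ _ _ hj'
      have e2 := bo_eo _ _ _ _ hk'
      rw [eo_asymm _ _ e1] at e2
      exact absurd e2 (by decide)
    · exact bo_left l i j k c hj' hk'

/-- number of colours `l < 4` hit by none of the four chosen colours. -/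
def freeCount (m m' : Fin 6 → ℕ) (a b c d : Fin 6) : ℕ :=
  ((List.range 4).filter fun l => !(m a == l || m b == l || m' c == l || m' d == l)).length

/-- some colour `l < 4` is hit from both sides. -/
def clash (m m' : Fin 6 → ℕ) (a b c d : Fin 6) : Bool :=
  (List.range 4).any fun l => (m a == l || m b == l) && (m' c == l || m' d == l)

theorem main_check : ∀ a b c d : Fin 6, a ≠ b → c ≠ d →
    freeCount m02 m12 a b c d < 2 ∨ freeCount m03 m13 a b c d < 2 ∨
    clash m04 m15 a b c d = true ∨ clash m06 m17 a b c d = true := by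
  decide +kernel

theorem rk_surj : ∀ S : Finset (Fin 6), S.card = 2 →
    (∃ c ∈ S, rk S c = 0) ∧ (∃ c ∈ S, rk S c = 1) := by
  decide +kernel

theorem freeCount_ge (m m' : Fin 6 → ℕ) (a b c d : Fin 6) (e e' : ℕ) (he : e < 4) (he' : e' < 4)
    (hne : e ≠ e')
    (h1 : m a ≠ e) (h2 : m b ≠ e) (h3 : m' c ≠ e) (h4 : m' d ≠ e)
    (h1' : m a ≠ e') (h2' : m b ≠ e') (h3' : m' c ≠ e') (h4' : m' d ≠ e') :
    2 ≤ freeCount m m' a b c d := by
  have hnd : [e, e'].Nodup := by simp [hne]
  have hsub : [e, e'] ⊆ (List.range 4).filter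
      fun l => !(m a == l || m b == l || m' c == l || m' d == l) := by
    intro x hx
    simp only [List.mem_cons, List.not_mem_nil, or_false] at hx
    rcases hx with rfl | rfl
    · simp [he, h1, h2, h3, h4]
    · simp [he', h1', h2', h3', h4']
  exact (hnd.subperm hsub).length_le

theorem four_cover (T T' : Finset (Fin 6)) (hT : T.card = 2) (hT' : T'.card = 2)
    (h4 : ∀ x ∈ T, x.val < 4) (h4' : ∀ x ∈ T', x.val < 4) (hd : ∀ x ∈ T, x ∉ T')
    (l : Fin 6) (hl : l.val < 4) : l ∈ T ∨ l ∈ T' := by
  have hdisj : Disjoint T T' := Finset.disjoint_left.2 hd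
  have hcard : (T ∪ T').card = 4 := by
    rw [Finset.card_union_of_disjoint hdisj, hT, hT']
  have hsub : T ∪ T' ⊆ Finset.univ.filter (fun x : Fin 6 => x.val < 4) := by
    intro x hx
    rw [Finset.mem_union] at hx
    simp only [Finset.mem_filter, Finset.mem_univ, true_and]
    exact hx.elim (h4 x) (h4' x)
  have h4card : (Finset.univ.filter (fun x : Fin 6 => x.val < 4)).card = 4 := by decide
  have heq := Finset.eq_of_subset_of_card_le hsub (by rw [hcard, h4card])
  have : l ∈ T ∪ T' := by
    rw [heq]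
    simp [hl]
  exact Finset.mem_union.1 this

theorem not_colorable_six :
    ¬ ∃ f : V → Finset (Fin 6), (∀ v, (f v).card = 2) ∧
      ∀ (u v : V), ∀ i ∈ f u, ∀ j ∈ f v, ¬ H.Adj (u, i) (v, j) := by
  rintro ⟨f, hcard, hind⟩
  set S := f none with hS
  have hSc : S.card = 2 := hcard none
  have hbo : ∀ (i j : Fin 8) (c d : Fin 6), c ∈ f (some (S, i)) → d ∈ f (some (S, j)) →
      bo i c j d = false := by
    intro i j c d hc hd
    by_contra hcon
    have htrue : bo i c j d = true := by simpa using hcon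
    exact hind _ _ c hc d hd (show hadj (some (S, i), c) (some (S, j), d) from ⟨rfl, Or.inl htrue⟩)
  have hlt : ∀ (j : Fin 8), 2 ≤ j.val → ∀ d ∈ f (some (S, j)), d.val < 4 := by
    intro j hj d hd
    by_contra hge
    obtain ⟨⟨c0, hc0, hr0⟩, ⟨c1, hc1, hr1⟩⟩ := rk_surj S hSc
    have hd5 : d.val = 4 ∨ d.val = 5 := by omega
    rcases hd5 with h | h
    · exact hind none (some (S, j)) c0 hc0 d hd
        (show hadj (none, c0) (some (S, j), d) from ⟨hj, hc0, by rw [h, hr0]⟩)
    · exact hind none (some (S, j)) c1 hc1 d hd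
        (show hadj (none, c1) (some (S, j), d) from ⟨hj, hc1, by rw [h, hr1]⟩)
  obtain ⟨a, b, hab, hu⟩ := Finset.card_eq_two.1 (hcard (some (S, 0)))
  obtain ⟨c, d, hcd, hw⟩ := Finset.card_eq_two.1 (hcard (some (S, 1)))
  have ha : a ∈ f (some (S, 0)) := by rw [hu]; simp
  have hb : b ∈ f (some (S, 0)) := by rw [hu]; simp
  have hc : c ∈ f (some (S, 1)) := by rw [hw]; simp
  have hd : d ∈ f (some (S, 1)) := by rw [hw]; simp
  rcases main_check a b c d hab hcd with h | h | h | h
  · obtain ⟨e, e', hee, hT⟩ := Finset.card_eq_two.1 (hcard (some (S, 2)))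
    have he : e ∈ f (some (S, 2)) := by rw [hT]; simp
    have he' : e' ∈ f (some (S, 2)) := by rw [hT]; simp
    have hge := freeCount_ge m02 m12 a b c d e.val e'.val (hlt 2 (by decide) e he)
      (hlt 2 (by decide) e' he') (fun h => hee (Fin.ext h))
      (by simpa [bo] using hbo 0 2 a e ha he) (by simpa [bo] using hbo 0 2 b e hb he)
      (by simpa [bo] using hbo 1 2 c e hc he) (by simpa [bo] using hbo 1 2 d e hd he)
      (by simpa [bo] using hbo 0 2 a e' ha he') (by simpa [bo] using hbo 0 2 b e' hb he')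
      (by simpa [bo] using hbo 1 2 c e' hc he') (by simpa [bo] using hbo 1 2 d e' hd he')
    omega
  · obtain ⟨e, e', hee, hT⟩ := Finset.card_eq_two.1 (hcard (some (S, 3)))
    have he : e ∈ f (some (S, 3)) := by rw [hT]; simp
    have he' : e' ∈ f (some (S, 3)) := by rw [hT]; simp
    have hge := freeCount_ge m03 m13 a b c d e.val e'.val (hlt 3 (by decide) e he)
      (hlt 3 (by decide) e' he') (fun h => hee (Fin.ext h))
      (by simpa [bo] using hbo 0 3 a e ha he) (by simpa [bo] using hbo 0 3 b e hb he)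
      (by simpa [bo] using hbo 1 3 c e hc he) (by simpa [bo] using hbo 1 3 d e hd he)
      (by simpa [bo] using hbo 0 3 a e' ha he') (by simpa [bo] using hbo 0 3 b e' hb he')
      (by simpa [bo] using hbo 1 3 c e' hc he') (by simpa [bo] using hbo 1 3 d e' hd he')
    omega
  · simp only [clash, List.any_eq_true, List.mem_range, Bool.and_eq_true, Bool.or_eq_true,
      beq_iff_eq] at h
    obtain ⟨l, hl, h0, h1⟩ := h
    have hcov := four_cover (f (some (S, 4))) (f (some (S, 5))) (hcard _) (hcard _)
      (hlt 4 (by decide)) (hlt 5 (by decide)) ?_ ⟨l, by omega⟩ hl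
    · rcases hcov with hm | hm
      · rcases h0 with h0 | h0
        · have := hbo 0 4 a _ ha hm
          simp [bo, h0] at this
        · have := hbo 0 4 b _ hb hm
          simp [bo, h0] at this
      · rcases h1 with h1 | h1
        · have := hbo 1 5 c _ hc hm
          simp [bo, h1] at this
        · have := hbo 1 5 d _ hd hm
          simp [bo, h1] at this
    · intro x hx hx'
      have := hbo 4 5 x x hx hx'
      have h4 := hlt 4 (by decide) x hx
      simp [bo] at this
      omega
  · simp only [clash, List.any_eq_true, List.mem_range, Bool.and_eq_true, Bool.or_eq_true,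
      beq_iff_eq] at h
    obtain ⟨l, hl, h0, h1⟩ := h
    have hcov := four_cover (f (some (S, 6))) (f (some (S, 7))) (hcard _) (hcard _)
      (hlt 6 (by decide)) (hlt 7 (by decide)) ?_ ⟨l, by omega⟩ hl
    · rcases hcov with hm | hm
      · rcases h0 with h0 | h0
        · have := hbo 0 6 a _ ha hm
          simp [bo, h0] at this
        · have := hbo 0 6 b _ hb hm
          simp [bo, h0] at this
      · rcases h1 with h1 | h1
        · have := hbo 1 7 c _ hc hm
          simp [bo, h1] at this
        · have := hbo 1 7 d _ hd hm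
          simp [bo, h1] at this
    · intro x hx hx'
      have := hbo 6 7 x x hx hx'
      have h4 := hlt 6 (by decide) x hx
      simp [bo] at this
      omega

end Pool.Agent.W_MP_15691b_co
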