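import Mathlib

set_option autoImplicit false

/-!
# A (3,1)-DP-colorable graph that is not (6,2)-DP-colorable

Local gadget graph on `Fin 8`: `0 = u`, `1 = w` are the two core vertices; `2`, `3` are joined to
both `u` and `w`; `0 - 4 - 5 - 1` and `0 - 6 - 7 - 1` are two paths.  An extra vertex `none` is
joined to the vertices `2, ..., 7` of every copy, and there is one copy for every
`S : Finset (Fin 6)`.
-/

namespace Pool.Agent.W_MP_15691b_co

/-- oriented edges of the local graph. -/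
def eo : Fin 8 → Fin 8 → Bool
  | 0, 2 => true
  | 1, 2 => true
  | 0, 3 => true
  | 1, 3 => true
  | 0, 4 => true
  | 4, 5 => true
  | 1, 5 => true
  | 0, 6 => true
  | 6, 7 => true
  | 1, 7 => true
  | _, _ => false

abbrev V : Type := Option (Finset (Fin 6) × Fin 8)

/-- adjacency of the graph. -/
def gadj : V → V → Prop
  | none, none => False
  | none, some (_, j) => 2 ≤ j.val
  | some (_, j), none => 2 ≤ j.val
  | some (S, i), some (T, j) => S = T ∧ (eo i j = true ∨ eo j i = true)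

theorem gadj_symm (x y : V) (h : gadj x y) : gadj y x := by
  match x, y, h with
  | none, some (_, j), h => exact h
  | some (_, j), none, h => exact h
  | some (S, i), some (T, j), h => exact ⟨h.1.symm, h.2.symm⟩

theorem eo_irrefl : ∀ i : Fin 8, eo i i = false := by decide

theorem gadj_irrefl (x : V) : ¬ gadj x x := by
  match x with
  | none => exact id
  | some (S, i) =>
    intro h
    have h2 := h.2
    rw [eo_irrefl i] at h2
    simp at h2

/-- the graph. -/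
def G : SimpleGraph V where
  Adj := gadj
  symm := ⟨fun x y h => gadj_symm x y h⟩
  loopless := ⟨fun x h => gadj_irrefl x h⟩

/-! ### part one: combinatorial lemmas for lists of size three -/

theorem exists_two_free (P : Fin 3 → Prop) (hP : ∀ c d, P c → P d → c = d) :
    ∃ α β : Fin 3, α ≠ β ∧ ¬ P α ∧ ¬ P β := by
  by_cases h0 : P 0
  · refine ⟨1, 2, by decide, ?_, ?_⟩
    · intro h; exact absurd (hP _ _ h0 h) (by decide)
    · intro h; exact absurd (hP _ _ h0 h) (by decide)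
  · by_cases h1 : P 1
    · refine ⟨0, 2, by decide, h0, ?_⟩
      intro h; exact absurd (hP _ _ h1 h) (by decide)
    · exact ⟨0, 1, by decide, h0, h1⟩

/-- a chosen preimage -/
theorem exists_pre (Q : Fin 3 → Prop) (hQ : ∀ a b, Q a → Q b → a = b) :
    ∃ a0 : Fin 3, ∀ a, Q a → a = a0 := by
  by_cases h : ∃ a, Q a
  · obtain ⟨a0, h0⟩ := h
    exact ⟨a0, fun a ha => hQ a a0 ha h0⟩
  · exact ⟨0, fun a ha => absurd ⟨a, ha⟩ h⟩

/-- A single vertex with at least two usable colours spoils at most two pairs. -/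
theorem plus_lemma (P : Fin 3 → Prop) (hP : ∀ c d, P c → P d → c = d)
    (R R' : Fin 3 → Fin 3 → Prop)
    (hR1 : ∀ a c d, R a c → R a d → c = d) (hR2 : ∀ a b c, R a c → R b c → a = b)
    (hR1' : ∀ a c d, R' a c → R' a d → c = d) (hR2' : ∀ a b c, R' a c → R' b c → a = b) :
    ∃ p q : Fin 3 × Fin 3, ∀ a b : Fin 3, (a, b) ≠ p → (a, b) ≠ q →
      ∃ c, ¬ P c ∧ ¬ R a c ∧ ¬ R' b c := by
  obtain ⟨α, β, hne, hα, hβ⟩ := exists_two_free P hP
  obtain ⟨a1, ha1⟩ := exists_pre (fun a => R a α) (fun a b h h' => hR2 a b α h h')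
  obtain ⟨b1, hb1⟩ := exists_pre (fun b => R' b β) (fun a b h h' => hR2' a b β h h')
  obtain ⟨a2, ha2⟩ := exists_pre (fun a => R a β) (fun a b h h' => hR2 a b β h h')
  obtain ⟨b2, hb2⟩ := exists_pre (fun b => R' b α) (fun a b h h' => hR2' a b α h h')
  refine ⟨(a1, b1), (a2, b2), fun a b h1 h2 => ?_⟩
  by_contra hcon
  push Not at hcon
  by_cases hRα : R a α
  · by_cases hRβ : R a β
    · exact hne (hR1 a α β hRα hRβ)
    · have : R' b β := hcon β hβ hRβ
      exact h1 (Prod.ext (ha1 a hRα) (hb1 b this))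
  · have hb : R' b α := hcon α hα hRα
    by_cases hRβ : R a β
    · exact h2 (Prod.ext (ha2 a hRβ) (hb2 b hb))
    · exact hne (hR1' b α β hb (hcon β hβ hRβ))

/-- A path of two vertices with at least two usable colours each spoils at most two pairs. -/
theorem path_lemma (P P' : Fin 3 → Prop) (hP : ∀ c d, P c → P d → c = d)
    (hP' : ∀ c d, P' c → P' d → c = d)
    (R R' M : Fin 3 → Fin 3 → Prop)
    (hR1 : ∀ a c d, R a c → R a d → c = d) (hR2 : ∀ a b c, R a c → R b c → a = b)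
    (hR1' : ∀ a c d, R' a c → R' a d → c = d) (hR2' : ∀ a b c, R' a c → R' b c → a = b)
    (hM1 : ∀ a c d, M a c → M a d → c = d) (hM2 : ∀ a b c, M a c → M b c → a = b) :
    ∃ p q : Fin 3 × Fin 3, ∀ a b : Fin 3, (a, b) ≠ p → (a, b) ≠ q →
      ∃ c d, ¬ P c ∧ ¬ R a c ∧ ¬ P' d ∧ ¬ R' b d ∧ ¬ M c d := by
  obtain ⟨α, β, hne, hα, hβ⟩ := exists_two_free P hP
  obtain ⟨γ, δ, hne', hγ, hδ⟩ := exists_two_free P' hP'
  -- if the colour of the path neighbour of `u` is forced to be `x`, then at most one `b` is bad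
  have key : ∀ x : Fin 3, ∃ b0 : Fin 3, ∀ b, b ≠ b0 → ∃ d, ¬ P' d ∧ ¬ R' b d ∧ ¬ M x d := by
    intro x
    by_cases h1 : M x δ
    · obtain ⟨b0, hb0⟩ := exists_pre (fun b => R' b γ) (fun a b h h' => hR2' a b γ h h')
      refine ⟨b0, fun b hb => ⟨γ, hγ, fun h => hb (hb0 b h), fun h => hne' (hM1 x γ δ h h1)⟩⟩
    · obtain ⟨b0, hb0⟩ := exists_pre (fun b => R' b δ) (fun a b h h' => hR2' a b δ h h')
      exact ⟨b0, fun b hb => ⟨δ, hδ, fun h => hb (hb0 b h), h1⟩⟩
  obtain ⟨a1, ha1⟩ := exists_pre (fun a => R a α) (fun a b h h' => hR2 a b α h h')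
  obtain ⟨a2, ha2⟩ := exists_pre (fun a => R a β) (fun a b h h' => hR2 a b β h h')
  obtain ⟨b1, hb1⟩ := key β
  obtain ⟨b2, hb2⟩ := key α
  refine ⟨(a1, b1), (a2, b2), fun a b h1 h2 => ?_⟩
  by_cases hRα : R a α
  · have hRβ : ¬ R a β := fun h => hne (hR1 a α β hRα h)
    have hb : b ≠ b1 := fun h => h1 (Prod.ext (ha1 a hRα) h)
    obtain ⟨d, hd1, hd2, hd3⟩ := hb1 b hb
    exact ⟨β, d, hβ, hRβ, hd1, hd2, hd3⟩
  · by_cases hRβ : R a β
    · have hb : b ≠ b2 := fun h => h2 (Prod.ext (ha2 a hRβ) h)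
      obtain ⟨d, hd1, hd2, hd3⟩ := hb2 b hb
      exact ⟨α, d, hα, hRα, hd1, hd2, hd3⟩
    · -- both `α` and `β` are usable
      have : ∃ d, ¬ P' d ∧ ¬ R' b d := by
        by_cases h : R' b γ
        · exact ⟨δ, hδ, fun h' => hne' (hR1' b γ δ h h')⟩
        · exact ⟨γ, hγ, h⟩
      obtain ⟨d, hd1, hd2⟩ := this
      by_cases h : M α d
      · exact ⟨β, d, hβ, hRβ, hd1, hd2, fun h' => hne (hM2 α β d h h')⟩
      · exact ⟨α, d, hα, hRα, hd1, hd2, h⟩

/-- Every 3-fold cover of one copy (with one colour possibly removed at each of `2..7`) can be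
coloured. -/
theorem copy_colorable (A : Fin 8 → Fin 3 → Fin 8 → Fin 3 → Prop)
    (hA1 : ∀ i a j c d, A i a j c → A i a j d → c = d)
    (hA2 : ∀ i a b j c, A i a j c → A i b j c → a = b)
    (P : Fin 8 → Fin 3 → Prop) (hP : ∀ j c d, P j c → P j d → c = d) :
    ∃ col : Fin 8 → Fin 3,
      (∀ i j, eo i j = true → ¬ A i (col i) j (col j)) ∧
      (∀ j : Fin 8, 2 ≤ j.val → ¬ P j (col j)) := by
  obtain ⟨p1, q1, h1⟩ := plus_lemma (P 2) (hP 2) (fun a c => A 0 a 2 c) (fun a c => A 1 a 2 c)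
    (fun a c d => hA1 0 a 2 c d) (fun a b c => hA2 0 a b 2 c)
    (fun a c d => hA1 1 a 2 c d) (fun a b c => hA2 1 a b 2 c)
  obtain ⟨p2, q2, h2⟩ := plus_lemma (P 3) (hP 3) (fun a c => A 0 a 3 c) (fun a c => A 1 a 3 c)
    (fun a c d => hA1 0 a 3 c d) (fun a b c => hA2 0 a b 3 c)
    (fun a c d => hA1 1 a 3 c d) (fun a b c => hA2 1 a b 3 c)
  obtain ⟨p3, q3, h3⟩ := path_lemma (P 4) (P 5) (hP 4) (hP 5) (fun a c => A 0 a 4 c)
    (fun a c => A 1 a 5 c) (fun a c => A 4 a 5 c)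
    (fun a c d => hA1 0 a 4 c d) (fun a b c => hA2 0 a b 4 c)
    (fun a c d => hA1 1 a 5 c d) (fun a b c => hA2 1 a b 5 c)
    (fun a c d => hA1 4 a 5 c d) (fun a b c => hA2 4 a b 5 c)
  obtain ⟨p4, q4, h4⟩ := path_lemma (P 6) (P 7) (hP 6) (hP 7) (fun a c => A 0 a 6 c)
    (fun a c => A 1 a 7 c) (fun a c => A 6 a 7 c)
    (fun a c d => hA1 0 a 6 c d) (fun a b c => hA2 0 a b 6 c)
    (fun a c d => hA1 1 a 7 c d) (fun a b c => hA2 1 a b 7 c)
    (fun a c d => hA1 6 a 7 c d) (fun a b c => hA2 6 a b 7 c)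
  have hex : ∃ x : Fin 3 × Fin 3, x ∉ ({p1, q1, p2, q2, p3, q3, p4, q4} : Finset (Fin 3 × Fin 3)) := by
    by_contra hcon
    push Not at hcon
    have hsub : (Finset.univ : Finset (Fin 3 × Fin 3)) ⊆ {p1, q1, p2, q2, p3, q3, p4, q4} :=
      fun x _ => hcon x
    have hc := Finset.card_le_card hsub
    have h9 : (Finset.univ : Finset (Fin 3 × Fin 3)).card = 9 := by decide
    have h6 : ({p2, q2, p3, q3, p4, q4} : Finset (Fin 3 × Fin 3)).card ≤ 6 :=
      Finset.card_le_six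
    have h7 : ({q1, p2, q2, p3, q3, p4, q4} : Finset (Fin 3 × Fin 3)).card ≤ 6 + 1 :=
      (Finset.card_insert_le _ _).trans (Nat.add_le_add_right h6 1)
    have h8 : ({p1, q1, p2, q2, p3, q3, p4, q4} : Finset (Fin 3 × Fin 3)).card ≤ 6 + 1 + 1 :=
      (Finset.card_insert_le _ _).trans (Nat.add_le_add_right h7 1)
    omega
  obtain ⟨⟨a, b⟩, hab⟩ := hex
  simp only [Finset.mem_insert, Finset.mem_singleton, not_or] at hab
  obtain ⟨n1, m1, n2, m2, n3, m3, n4, m4⟩ := hab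
  obtain ⟨c2, hc2, hc2a, hc2b⟩ := h1 a b n1 m1
  obtain ⟨c3, hc3, hc3a, hc3b⟩ := h2 a b n2 m2
  obtain ⟨c4, c5, hc4, hc4a, hc5, hc5b, hc45⟩ := h3 a b n3 m3
  obtain ⟨c6, c7, hc6, hc6a, hc7, hc7b, hc67⟩ := h4 a b n4 m4
  refine ⟨![a, b, c2, c3, c4, c5, c6, c7], ?_, ?_⟩
  · intro i j hij
    fin_cases i <;> fin_cases j <;> first
      | exact absurd hij (by decide)
      | assumption
  · intro j hj
    fin_cases j <;> first
      | exact absurd hj (by decide)
      | assumption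

end Pool.Agent.W_MP_15691b_co
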